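import Pool.Agent.H71.WE.Targets

/-!
Board wee_modules, row E3B: a small cut not containing the second end of the edge.
-/

set_option autoImplicit false
set_option linter.unusedSectionVars false

namespace Pool.Agent.H80.WE

open Finset Pool.Agent.H71.WE

section
variable {V E : Type} [Fintype V] [DecidableEq V] [DecidableEq E]

theorem ctr_mem {S : Finset V} {x : V} (h : x ∈ S) : ctr S x = none := dif_pos h

theorem ctr_not {S : Finset V} {x : V} (h : x ∉ S) : ctr S x = some ⟨x, h⟩ := dif_neg h

theorem ctr_none {S : Finset V} {x : V} (h : ctr S x = none) : x ∈ S := by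
  by_contra hx
  rw [ctr_not hx] at h
  exact Option.some_ne_none _ h

theorem ctr_inj {S : Finset V} {x y : V} (hy : y ∉ S) (h : ctr S x = ctr S y) : x = y := by
  by_cases hx : x ∈ S
  · rw [ctr_mem hx, ctr_not hy] at h
    exact absurd h.symm (Option.some_ne_none _)
  · rw [ctr_not hx, ctr_not hy] at h
    have := Option.some.inj h
    exact congrArg Subtype.val this

theorem mem_pre {W : Type} [DecidableEq W] {f : V → W} {X : Finset W} {x : V} :
    x ∈ pre f X ↔ f x ∈ X := by
  unfold pre
  simp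

theorem sep_pre {W : Type} [DecidableEq W] (f : V → W) (a b : V) (Z : Finset W) :
    sep (f a) (f b) Z = sep a b (pre f Z) := by
  unfold sep
  simp only [mem_pre]

theorem cn_cg {G : Gr V E} {B B' : Finset E} {X : Finset V}
    (h : ∀ g, Cr G X g → (g ∈ B ↔ g ∈ B')) : cn G B X = cn G B' X := by
  unfold cn
  congr 1
  ext g
  simp only [mem_filter]
  constructor
  · rintro ⟨h1, h2⟩
    exact ⟨(h g h2).1 h1, h2⟩
  · rintro ⟨h1, h2⟩
    exact ⟨(h g h2).2 h1, h2⟩

theorem not_cr_sub {G : Gr V E} {S X : Finset V} {g : E} (hX : S ⊆ X) (h1 : G.s g ∈ S)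
    (h2 : G.t g ∈ S) : ¬ Cr G X g := by
  rintro (⟨_, h⟩ | ⟨h, _⟩)
  · exact h (hX h2)
  · exact h (hX h1)

theorem not_cr_out {G : Gr V E} {X : Finset V} {g : E} (h1 : G.s g ∉ X)
    (h2 : G.t g ∉ X) : ¬ Cr G X g := by
  rintro (⟨h, _⟩ | ⟨_, h⟩)
  · exact h1 h
  · exact h2 h

/-- the hypotheses of (E) after a contraction -/
theorem eh_ctr (hC : T_CTR) {G : Gr V E} {A : Finset E} {r : ℕ} {K : Finset V} {v' z' : V}
    {e' : E} {S : Finset V} (hS : S.Nonempty) (hr : Even r)
    (hv : ctr S v' ∈ K.image (ctr S)) (hz : ctr S z' ≠ ctr S v') (he : e' ∈ A)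
    (hj : Jn G e' v' z') (hd : cn G A (pre (ctr S) {ctr S v'}) ≤ r + 1) (hEc : Ec G A r)
    (hK : ∀ X : Finset V, X.Nonempty → Disjoint X K → r + 2 ≤ cn G A X) :
    EH (mp G (ctr S)) A r (K.image (ctr S)) (ctr S v') (ctr S z') e' := by
  obtain ⟨c1, -, c3⟩ := hC V E G
  obtain ⟨-, -, c5, c6, -⟩ := c3 S hS
  refine ⟨hr, hv, hz, he, ?_, ?_, ?_, ?_⟩
  · rcases hj with ⟨h1, h2⟩ | ⟨h1, h2⟩
    · left
      exact ⟨congrArg (ctr S) h1, congrArg (ctr S) h2⟩
    · right
      exact ⟨congrArg (ctr S) h1, congrArg (ctr S) h2⟩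
  · rw [c1]
    exact hd
  · intro Z h1 h2
    rw [c1]
    exact hEc _ ((c5 Z).2 h1) (fun h => h2 ((c6 Z).1 h))
  · intro Z h1 h2
    rw [c1]
    refine hK _ ((c5 Z).2 h1) ?_
    rw [disjoint_left]
    intro x hx hxK
    rw [mem_pre] at hx
    exact (disjoint_left.1 h2) hx (mem_image_of_mem _ hxK)

theorem pre_single {S : Finset V} {v : V} (hv : v ∉ S) : pre (ctr S) {ctr S v} = {v} := by
  ext x
  rw [mem_pre, mem_singleton, mem_singleton]
  exact ⟨fun h => ctr_inj hv h, fun h => by rw [h]⟩

theorem pre_none {S : Finset V} {v : V} (hv : v ∈ S) : pre (ctr S) {ctr S v} = S := by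
  ext x
  rw [mem_pre, mem_singleton, ctr_mem hv]
  exact ⟨fun h => ctr_none h, fun h => ctr_mem h⟩

end

theorem pf_E3B (h1 : T_CUT) (h2 : T_SEP) (h3 : T_GLU) (h4 : T_CTR) (h5 : T_TRN) (h6 : T_PTH) :
    T_E3B := by
  intro V E _ _ _ G A r K v z e W hEH hvW hzW hWne hcW hI1 hI2
  obtain ⟨hr, hvK, hzv, heA, hJ, hdv, hEc, hK⟩ := hEH
  obtain ⟨c1, -, c3⟩ := h4 V E G
  have hWu : W ≠ univ := fun h => hvW (h ▸ mem_univ v)
  obtain ⟨c4, -, c5, c6, -⟩ := c3 W hWne
  have hWc : (Wᶜ).Nonempty := ⟨v, mem_compl.2 hvW⟩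
  obtain ⟨d4, -, d5, d6, -⟩ := c3 Wᶜ hWc
  -- `W` meets `K`
  obtain ⟨k0, hk0W, hk0K⟩ : ∃ k0, k0 ∈ W ∧ k0 ∈ K := by
    by_contra h
    push Not at h
    have := hK W hWne (disjoint_left.2 h)
    omega
  have heW : G.s e ∉ W ∧ G.t e ∉ W := by
    rcases hJ with ⟨a1, a2⟩ | ⟨a1, a2⟩
    · rw [a1, a2]; exact ⟨hvW, hzW⟩
    · rw [a1, a2]; exact ⟨hzW, hvW⟩
  have hE1 : EH (mp G (ctr W)) A r (K.image (ctr W)) (ctr W v) (ctr W z) e := by
    refine eh_ctr h4 hWne hr (mem_image_of_mem _ hvK) (fun h => hzv (ctr_inj hvW h)) heA hJ ?_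
      hEc hK
    rw [pre_single hvW]
    exact hdv
  obtain ⟨y1, hy1K, hy1v, D1, hD1A, hD1c, hD1K, hD1r⟩ := hI1 _ _ _ _ _ _ hE1
  obtain ⟨D0, hD01, hD0p⟩ := pt_exists hD1c
  have hD0A : D0 ⊆ A.erase e := hD01.trans hD1A
  have hD0K := fun g (hg : g ∈ D0) => hD1K g (hD01 hg)
  have hD0r : ∀ Z : Finset (Option {x : V // x ∉ W}), Z.Nonempty → Z ≠ univ →
      r ≤ cn G (A \ insert e D0) (pre (ctr W) Z) + sep (ctr W v) y1 Z := by
    intro Z z1 z2
    refine (hD1r Z z1 z2).trans ?_
    rw [c1]
    refine Nat.add_le_add_right (cn_mono G ?_ _) _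
    exact sdiff_subset_sdiff (Subset.refl _) (insert_subset_insert e hD01)
  obtain ⟨p1, -, -, p4, -, -, -⟩ := h6 _ _ _ _ _ _ hD0p
  have heD0 : e ∉ D0 := fun h => (mem_erase.1 (hD0A h)).1 rfl
  have hnone : (none : Option {x : V // x ∉ W}) ∈ K.image (ctr W) :=
    mem_image.2 ⟨k0, hk0K, ctr_mem hk0W⟩
  rcases Option.eq_none_or_eq_some y1 with hy | ⟨⟨y, hyW⟩, hy⟩
  · -- case B
    subst hy
    -- the crossing edge
    have hcross : ∃ g0 ∈ D0, Cr G W g0 := by
      obtain ⟨g, hg, hc⟩ := hD0p.1 ({(none : Option {x : V // x ∉ W})}ᶜ) (by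
        rw [mem_compl, mem_singleton]
        exact fun h => hzW (ctr_none h)) (by simp)
      refine ⟨g, hg, ?_⟩
      rw [cr_compl] at hc
      rcases hc with ⟨a1, a2⟩ | ⟨a1, a2⟩
      · left
        rw [mem_singleton] at a1 a2
        exact ⟨ctr_none a1, fun h => a2 (ctr_mem h)⟩
      · right
        rw [mem_singleton] at a1 a2
        exact ⟨fun h => a1 (ctr_mem h), ctr_none a2⟩
    obtain ⟨g0, hg0D, hg0c⟩ := hcross
    have hone : cn G D0 W ≤ 1 := by
      have := p4
      rw [c1] at this
      have e0 : pre (ctr W) {(none : Option {x : V // x ∉ W})} = W := by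
        rw [← ctr_mem hk0W]
        exact pre_none hk0W
      rwa [e0] at this
    have huniq : ∀ g ∈ D0, Cr G W g → g = g0 := by
      intro g hg hc
      unfold cn at hone
      exact card_le_one.1 hone g (mem_filter.2 ⟨hg, hc⟩) g0 (mem_filter.2 ⟨hg0D, hg0c⟩)
    have hg0A : g0 ∈ A := (mem_erase.1 (hD0A hg0D)).2
    -- its ends
    obtain ⟨w, x0, hwW, hx0W, hJ0⟩ : ∃ w x0 : V, w ∈ W ∧ x0 ∉ W ∧ Jn G g0 x0 w := by
      rcases hg0c with ⟨a1, a2⟩ | ⟨a1, a2⟩
      · exact ⟨_, _, a1, a2, Or.inr ⟨rfl, rfl⟩⟩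
      · exact ⟨_, _, a2, a1, Or.inl ⟨rfl, rfl⟩⟩
    have hg0s : G.s g0 ∈ W → G.s g0 = w := by
      intro h
      rcases hJ0 with ⟨a1, a2⟩ | ⟨a1, a2⟩
      · rw [a1] at h
        exact absurd h hx0W
      · exact a1
    have hg0t : G.t g0 ∈ W → G.t g0 = w := by
      intro h
      rcases hJ0 with ⟨a1, a2⟩ | ⟨a1, a2⟩
      · exact a2
      · rw [a2] at h
        exact absurd h hx0W
    have hvC : v ∈ Wᶜ := mem_compl.2 hvW
    have hx0C : x0 ∈ Wᶜ := mem_compl.2 hx0W
    have hwC : w ∉ Wᶜ := fun h => (mem_compl.1 h) hwW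
    have hE2 : EH (mp G (ctr Wᶜ)) A r (K.image (ctr Wᶜ)) (ctr Wᶜ x0) (ctr Wᶜ w) g0 := by
      refine eh_ctr h4 hWc hr ?_ ?_ hg0A hJ0 ?_ hEc hK
      · rw [ctr_mem hx0C, ← ctr_mem hvC]
        exact mem_image_of_mem _ hvK
      · rw [ctr_mem hx0C, ctr_not hwC]
        exact Option.some_ne_none _
      · rw [pre_none hx0C, cn_compl]
        exact hcW
    obtain ⟨y2, hy2K, hy2v, D2, hD2A, hD2c, hD2K, hD2r⟩ := hI2 _ _ _ _ _ _ hE2
    rw [ctr_mem hx0C] at hy2v
    obtain ⟨y, hyK, hyy⟩ := mem_image.1 hy2K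
    subst hyy
    have hyW : y ∈ W := by
      by_contra h
      exact hy2v (ctr_mem (mem_compl.2 h))
    have hyC : y ∉ Wᶜ := fun h => (mem_compl.1 h) hyW
    have hn2 : (none : Option {x : V // x ∉ Wᶜ}) ∈ K.image (ctr Wᶜ) :=
      mem_image.2 ⟨v, hvK, ctr_mem hvC⟩
    have hD2W : ∀ g ∈ D2, G.s g ∈ W ∧ G.t g ∈ W := by
      intro g hg
      constructor
      · by_contra h
        have hm : ctr Wᶜ (G.s g) = none := ctr_mem (mem_compl.2 h)
        have := (hD2K g hg).1 (by
          show ctr Wᶜ (G.s g) ∈ _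
          rw [hm]
          exact hn2)
        change ctr Wᶜ (G.s g) = _ at this
        rw [hm] at this
        exact hy2v this.symm
      · by_contra h
        have hm : ctr Wᶜ (G.t g) = none := ctr_mem (mem_compl.2 h)
        have := (hD2K g hg).2 (by
          show ctr Wᶜ (G.t g) ∈ _
          rw [hm]
          exact hn2)
        change ctr Wᶜ (G.t g) = _ at this
        rw [hm] at this
        exact hy2v this.symm
    have hD2y : ∀ g ∈ D2, (G.s g ∈ K → G.s g = y) ∧ (G.t g ∈ K → G.t g = y) := by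
      intro g hg
      exact ⟨fun h => ctr_inj hyC ((hD2K g hg).1 (mem_image_of_mem _ h)),
        fun h => ctr_inj hyC ((hD2K g hg).2 (mem_image_of_mem _ h))⟩
    have hD2co : Co G D2 w y := by
      have := h5 V E G Wᶜ ∅ D2 ∅ w y (by
        intro g hg _
        exact ⟨fun h => absurd (hD2W g hg).1 (mem_compl.1 h),
          fun h => absurd (hD2W g hg).2 (mem_compl.1 h)⟩) (fun h => absurd h hwC)
        (fun h => absurd h hyC) (fun x hx => absurd hx (notMem_empty x)) hD2c
      rwa [union_empty] at this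
    have hwy : w ∈ K → w = y := by
      intro hwK
      by_contra hne
      obtain ⟨g, hg, hc⟩ := hD2co {w} (mem_singleton_self w)
        (fun h => hne (mem_singleton.1 h).symm)
      rcases hc with ⟨a1, _⟩ | ⟨_, a1⟩
      · rw [mem_singleton] at a1
        have := (hD2y g hg).1 (a1 ▸ hwK)
        rw [a1] at this
        exact hne this
      · rw [mem_singleton] at a1
        have := (hD2y g hg).2 (a1 ▸ hwK)
        rw [a1] at this
        exact hne this
    have heD2 : e ∉ D2 := fun h => heW.1 (hD2W e h).1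
    have hg0D2 : g0 ∉ D2 := fun h => (mem_erase.1 (hD2A h)).1 rfl
    -- edges of D0 with an end in W
    have hD0W : ∀ g ∈ D0, (G.s g ∈ W ∨ G.t g ∈ W) → g = g0 := by
      intro g hg h
      refine huniq g hg ?_
      have hl := p1 g hg
      rcases h with h | h
      · left
        refine ⟨h, fun h' => hl ?_⟩
        show ctr W (G.s g) = ctr W (G.t g)
        rw [ctr_mem h, ctr_mem h']
      · right
        refine ⟨fun h' => hl ?_, h⟩
        show ctr W (G.s g) = ctr W (G.t g)
        rw [ctr_mem h, ctr_mem h']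
    have hD0out : ∀ g ∈ D0, (G.s g ∈ K → G.s g ∈ W) ∧ (G.t g ∈ K → G.t g ∈ W) := by
      intro g hg
      exact ⟨fun h => ctr_none ((hD0K g hg).1 (mem_image_of_mem _ h)),
        fun h => ctr_none ((hD0K g hg).2 (mem_image_of_mem _ h))⟩
    refine ⟨y, hyK, fun h => hvW (h ▸ hyW), D0 ∪ D2, ?_, ?_, ?_, ?_⟩
    · refine union_subset hD0A ?_
      intro g hg
      refine mem_erase.2 ⟨fun h => heD2 (h ▸ hg), (mem_erase.1 (hD2A hg)).2⟩
    · refine h5 V E G W {w, y} D0 D2 z y ?_ (fun h => absurd h hzW) (fun _ => by simp) ?_ ?_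
      · intro g hg hc
        have := huniq g hg hc
        subst this
        exact ⟨fun h => by rw [hg0s h]; simp, fun h => by rw [hg0t h]; simp⟩
      · intro x hx x' hx'
        rw [mem_insert, mem_singleton] at hx hx'
        rcases hx with rfl | rfl <;> rcases hx' with rfl | rfl
        · exact co_refl _ _ _
        · exact hD2co
        · exact co_symm hD2co
        · exact co_refl _ _ _
      · rw [ctr_mem hyW]
        exact hD0p.1
    · intro g hg
      rcases mem_union.1 hg with hg | hg
      · constructor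
        · intro h
          have a1 := (hD0out g hg).1 h
          have a2 := hD0W g hg (Or.inl a1)
          subst a2
          have a3 := hg0s a1
          rw [a3] at h ⊢
          exact hwy h
        · intro h
          have a1 := (hD0out g hg).2 h
          have a2 := hD0W g hg (Or.inr a1)
          subst a2
          have a3 := hg0t a1
          rw [a3] at h ⊢
          exact hwy h
      · exact hD2y g hg
    · -- residual
      refine h3 V (fun X => cn G (A \ insert e (D0 ∪ D2)) X + sep v y X)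
        ((h2 V).2 _ _ (h1 V E G _) ((h2 V).1 v y)) r r W hr hr le_rfl hWne hWu ?_ ?_ ?_
      · intro X x1 x2 x3
        obtain ⟨Z, hZ⟩ := d4 X (Or.inr (by
          rw [disjoint_left]
          intro x hx hx'
          exact (mem_compl.1 hx) (x2 hx')))
        have z1 : Z.Nonempty := (d5 Z).1 (by rw [hZ]; exact x1)
        have z2 : Z ≠ univ := by
          intro h
          have := (d6 Z).2 h
          rw [hZ] at this
          exact hvW (x2 (this ▸ mem_univ v))
        have q := hD2r Z z1 z2
        rw [c1, hZ, sep_pre, hZ] at q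
        have s1 : sep x0 y X = sep v y X := by
          have a1 : x0 ∉ X := fun h => hx0W (x2 h)
          have a2 : v ∉ X := fun h => hvW (x2 h)
          unfold sep
          simp only [a1, a2]
        rw [s1] at q
        have s2 : cn G (A \ insert e (D0 ∪ D2)) X = cn G (A \ insert g0 D2) X := by
          refine cn_cg ?_
          intro g hc
          have hend : G.s g ∈ W ∨ G.t g ∈ W := by
            rcases hc with ⟨a1, _⟩ | ⟨_, a1⟩
            · exact Or.inl (x2 a1)
            · exact Or.inr (x2 a1)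
          simp only [mem_sdiff, mem_insert, mem_union, not_or]
          constructor
          · rintro ⟨b1, b2, b3, b4⟩
            exact ⟨b1, fun h => b3 (h ▸ hg0D), b4⟩
          · rintro ⟨b1, b2, b3⟩
            refine ⟨b1, ?_, fun h => b2 (hD0W g h hend), b3⟩
            intro h
            subst h
            exact hend.elim heW.1 heW.2
        show r ≤ cn G (A \ insert e (D0 ∪ D2)) X + sep v y X
        rw [s2]
        exact q
      · intro X x1 x2
        obtain ⟨Z, hZ⟩ := c4 X (Or.inl x1)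
        have z1 : Z.Nonempty := (c5 Z).1 (by rw [hZ]; exact hWne.mono x1)
        have z2 : Z ≠ univ := fun h => x2 (by rw [← hZ]; exact (c6 Z).2 h)
        have q := hD0r Z z1 z2
        rw [← ctr_mem hyW, sep_pre, hZ] at q
        have s2 : cn G (A \ insert e (D0 ∪ D2)) X = cn G (A \ insert e D0) X := by
          refine cn_cg ?_
          intro g hc
          simp only [mem_sdiff, mem_insert, mem_union, not_or]
          constructor
          · rintro ⟨b1, b2, b3, b4⟩
            exact ⟨b1, b2, b3⟩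
          · rintro ⟨b1, b2, b3⟩
            refine ⟨b1, b2, b3, fun h => ?_⟩
            exact not_cr_sub x1 (hD2W g h).1 (hD2W g h).2 hc
        show r ≤ cn G (A \ insert e (D0 ∪ D2)) X + sep v y X
        rw [s2]
        exact q
      · show cn G (A \ insert e (D0 ∪ D2)) W + sep v y W ≤ r + 1
        have s1 : sep v y W = 1 := by
          unfold sep
          simp [hvW, hyW]
        have s2 : cn G (A \ insert e (D0 ∪ D2)) W ≤ cn G (A \ {g0}) W := by
          refine cn_mono G ?_ W
          intro g hg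
          rw [mem_sdiff, mem_insert, mem_union, not_or, not_or] at hg
          rw [mem_sdiff, mem_singleton]
          exact ⟨hg.1, fun h => hg.2.2.1 (h ▸ hg0D)⟩
        have s3 := cn_sdiff G (singleton_subset_iff.2 hg0A) W
        have s4 : cn G {g0} W = 1 := by
          unfold cn
          rw [filter_singleton, if_pos hg0c, card_singleton]
        omega
  · -- case A
    subst hy
    obtain ⟨y', hy'K, hy'⟩ := mem_image.1 hy1K
    have hyy : y' = y := ctr_inj hyW (by rw [hy', ctr_not hyW])
    subst hyy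
    rw [← ctr_not hyW] at *
    have hD0W : ∀ g ∈ D0, G.s g ∉ W ∧ G.t g ∉ W := by
      intro g hg
      constructor
      · intro h
        have := (hD0K g hg).1 (by
          show ctr W (G.s g) ∈ _
          rw [ctr_mem h]
          exact hnone)
        change ctr W (G.s g) = _ at this
        rw [ctr_mem h, ctr_not hyW] at this
        exact (Option.some_ne_none _) this.symm
      · intro h
        have := (hD0K g hg).2 (by
          show ctr W (G.t g) ∈ _
          rw [ctr_mem h]
          exact hnone)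
        change ctr W (G.t g) = _ at this
        rw [ctr_mem h, ctr_not hyW] at this
        exact (Option.some_ne_none _) this.symm
    refine ⟨y', hy'K, ?_, D0, hD0A, ?_, ?_, ?_⟩
    · intro h
      apply hy1v
      rw [h]
    · have := h5 V E G W ∅ D0 ∅ z y' (by
        intro g hg _
        exact ⟨fun h => absurd h (hD0W g hg).1, fun h => absurd h (hD0W g hg).2⟩)
        (fun h => absurd h hzW) (fun h => absurd h hyW)
        (fun x hx => absurd hx (notMem_empty x)) hD0p.1
      rwa [union_empty] at this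
    · intro g hg
      exact ⟨fun h => ctr_inj hyW ((hD0K g hg).1 (mem_image_of_mem _ h)),
        fun h => ctr_inj hyW ((hD0K g hg).2 (mem_image_of_mem _ h))⟩
    · refine h3 V (fun X => cn G (A \ insert e D0) X + sep v y' X)
        ((h2 V).2 _ _ (h1 V E G _) ((h2 V).1 v y')) r r W hr hr le_rfl hWne hWu ?_ ?_ ?_
      · intro X x1 x2 x3
        have s2 : cn G (A \ insert e D0) X = cn G A X := by
          refine cn_cg ?_
          intro g hc
          have hend : G.s g ∈ W ∨ G.t g ∈ W := by
            rcases hc with ⟨a1, _⟩ | ⟨_, a1⟩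
            · exact Or.inl (x2 a1)
            · exact Or.inr (x2 a1)
          simp only [mem_sdiff, mem_insert, not_or]
          constructor
          · rintro ⟨b1, _⟩
            exact b1
          · intro b1
            refine ⟨b1, ?_, ?_⟩
            · intro h
              subst h
              exact hend.elim heW.1 heW.2
            · intro h
              exact hend.elim (hD0W g h).1 (hD0W g h).2
        show r ≤ cn G (A \ insert e D0) X + sep v y' X
        rw [s2]
        exact le_trans (hEc X x1 (fun h => hvW (x2 (h ▸ mem_univ v)))) (Nat.le_add_right _ _)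
      · intro X x1 x2
        obtain ⟨Z, hZ⟩ := c4 X (Or.inl x1)
        have z1 : Z.Nonempty := (c5 Z).1 (by rw [hZ]; exact hWne.mono x1)
        have z2 : Z ≠ univ := fun h => x2 (by rw [← hZ]; exact (c6 Z).2 h)
        have q := hD0r Z z1 z2
        rw [sep_pre, hZ] at q
        exact q
      · show cn G (A \ insert e D0) W + sep v y' W ≤ r + 1
        have s1 : sep v y' W = 0 := by
          unfold sep
          simp [hvW, hyW]
        have s2 : cn G (A \ insert e D0) W ≤ cn G A W := cn_mono G sdiff_subset W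
        omega

end Pool.Agent.H80.WE
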