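import Pool.Agent.H80.WE.E3B

/-!
Board wee_modules, row QCT: (Q) inside a set.
-/

set_option autoImplicit false
set_option linter.unusedSectionVars false

namespace Pool.Agent.H80.WE

open Finset Pool.Agent.H71.WE

theorem pf_QCT (h1 : T_Q) (h2 : T_CTR) (h3 : T_TRN) : T_QCT := by
  intro V E _ _ _ G A r S w1 w2 g1 g2 hr hSu hS hcS hg1 hg2 hne hc1 hc2 hw1 hw2 he1 he2
  obtain ⟨c1, -, c3⟩ := h2 V E G
  have hSc : (Sᶜ).Nonempty := by
    rw [nonempty_iff_ne_empty]
    intro h
    exact hSu (by rw [← compl_compl S, h, compl_empty])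
  obtain ⟨d4, d4', d5, d6, -⟩ := c3 Sᶜ hSc
  have hw1C : w1 ∉ Sᶜ := fun h => (mem_compl.1 h) hw1
  have hw2C : w2 ∉ Sᶜ := fun h => (mem_compl.1 h) hw2
  -- the ends of a crossing edge
  have hjn : ∀ (g : E) (w : V), Cr G S g → w ∈ S → (G.s g = w ∨ G.t g = w) →
      Jn (mp G (ctr Sᶜ)) g none (ctr Sᶜ w) := by
    intro g w hc hw he
    rcases hc with ⟨a1, a2⟩ | ⟨a1, a2⟩
    · right
      have : G.s g = w := by
        rcases he with h | h
        · exact h
        · rw [h] at a2
          exact absurd hw a2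
      exact ⟨congrArg (ctr Sᶜ) this, ctr_mem (mem_compl.2 a2)⟩
    · left
      have : G.t g = w := by
        rcases he with h | h
        · rw [h] at a1
          exact absurd hw a1
        · exact h
      exact ⟨ctr_mem (mem_compl.2 a1), congrArg (ctr Sᶜ) this⟩
  have hQ : QH (mp G (ctr Sᶜ)) A r none (ctr Sᶜ w1) (ctr Sᶜ w2) g1 g2 := by
    refine ⟨hr, ?_, ?_, hg1, hg2, hne, hjn g1 w1 hc1 hw1 he1, hjn g2 w2 hc2 hw2 he2, ?_, ?_⟩
    · intro Z z1 z2
      rw [c1]
      have n1 := (d5 Z).2 z1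
      have n2 : pre (ctr Sᶜ) Z ≠ univ := fun h => z2 ((d6 Z).1 h)
      rcases d4' Z with h | h
      · rw [← cn_compl]
        refine hS _ ?_ ?_
        · rw [nonempty_iff_ne_empty]
          intro h'
          exact n2 (by rw [← compl_compl (pre (ctr Sᶜ) Z), h', compl_empty])
        · intro x hx
          by_contra hxS
          exact (mem_compl.1 hx) (h (mem_compl.2 hxS))
      · refine hS _ n1 ?_
        intro x hx
        by_contra hxS
        exact (disjoint_left.1 h) (mem_compl.2 hxS) hx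
    · obtain ⟨x, hx⟩ := hSc
      rw [c1, ← ctr_mem hx, pre_none hx, cn_compl]
      exact hcS
    · rw [ctr_not hw1C]
      exact Option.some_ne_none _
    · rw [ctr_not hw2C]
      exact Option.some_ne_none _
  obtain ⟨F, f1, f2, f3, f4⟩ := h1 (Option {x : V // x ∉ Sᶜ}) E r _ _ _ _ _ _ _ hQ
  have hFS : ∀ g ∈ F, G.s g ∈ S ∧ G.t g ∈ S := by
    intro g hg
    constructor
    · by_contra h
      exact (f2 g hg).1 (ctr_mem (mem_compl.2 h))
    · by_contra h
      exact (f2 g hg).2 (ctr_mem (mem_compl.2 h))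
  refine ⟨F, f1, hFS, ?_, ?_⟩
  · have := h3 V E G Sᶜ ∅ F ∅ w1 w2 (by
      intro g hg _
      exact ⟨fun h => absurd (hFS g hg).1 (mem_compl.1 h),
        fun h => absurd (hFS g hg).2 (mem_compl.1 h)⟩) (fun h => absurd h hw1C)
      (fun h => absurd h hw2C) (fun x hx => absurd hx (notMem_empty x)) f3
    rwa [union_empty] at this
  · intro X x1 x2
    obtain ⟨Z, hZ⟩ := d4 X (Or.inr (by
      rw [disjoint_left]
      intro x hx hx'
      exact (mem_compl.1 hx) (x2 hx')))
    have z1 : Z.Nonempty := (d5 Z).1 (by rw [hZ]; exact x1)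
    have z2 : Z ≠ univ := by
      intro h
      have := (d6 Z).2 h
      rw [hZ] at this
      exact hSu (eq_univ_iff_forall.2 fun x => x2 (this ▸ mem_univ x))
    have q := f4 Z z1 z2
    rw [c1, hZ] at q
    exact q

end Pool.Agent.H80.WE
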